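import Pool.Agent.H50.Tr.Basic
import Pool.Agent.H50.RS.Lin
import Pool.Graph.R_pool_sql_team_seeded_620a6dc7.Results.MP_e27144_an.LocalMass

/-!
The restriction of a tracial state to the powers of a translation: spans of its arithmetic
subsequences.
-/

set_option autoImplicit false

open MeasureTheory Filter Topology Set
open scoped ENNReal ComplexOrder

namespace Pool.Agent.H50.Tr

open Pool.Agent.W763.Tr Pool.Agent.TH654.FC Pool.Agent.Y253.TR Pool.Agent.TH463.UQ
open Pool.Agent.V11299.FG Pool.Agent.V1194.TR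

/-- the span of the sequences `n ↦ φ (g ^ (M n + r))`, `M ∈ S`, `0 ≤ r < M`, in the space of all
functions `ℤ → ℂ`. When `S` is the set of the powers of `q` this is the `ℂ`-span of the `q`-kernel
of the sequence `n ↦ φ (g ^ n)`. -/
def kernelSpan {G : Subgroup (Equiv.Perm ℚ)} (φ : G → ℂ) (g : G) (S : Set ℕ) : Submodule ℂ (ℤ → ℂ) :=
  Submodule.span ℂ {f : ℤ → ℂ | ∃ M ∈ S, ∃ r : ℕ, r < M ∧ f = fun n : ℤ => φ (g ^ ((M : ℤ) * n + r))}

/-- the periodic sequences -/
def Per (N : ℕ) : Submodule ℂ (ℤ → ℂ) where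
  carrier := {f | ∀ n, f (n + N) = f n}
  zero_mem' := fun n => rfl
  add_mem' := fun {f f'} h h' n => by
    show f (n + N) + f' (n + N) = f n + f' n
    rw [h n, h' n]
  smul_mem' := fun c f h n => by
    show c * f (n + N) = c * f n
    rw [h n]

lemma per_mul {N : ℕ} {f : ℤ → ℂ} (hf : ∀ n, f (n + N) = f n) (n k : ℤ) : f (n + N * k) = f n := by
  induction k with
  | zero => simp
  | succ k ih =>
    rw [← ih, ← hf (n + N * k)]
    congr 1; ring
  | pred k ih =>
    rw [← ih, ← hf (n + N * (-(k : ℤ) - 1))]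
    congr 1; ring

lemma per_finite {N : ℕ} (hN : 1 ≤ N) : FiniteDimensional ℂ (Per N) := by
  let L : Per N →ₗ[ℂ] (Fin N → ℂ) :=
    { toFun := fun f i => (f : ℤ → ℂ) (i : ℕ)
      map_add' := fun f g => by funext i; rfl
      map_smul' := fun c f => by funext i; rfl }
  refine FiniteDimensional.of_injective L ?_
  intro f f' h
  apply Subtype.ext
  funext n
  have hN0 : (N : ℤ) ≠ 0 := by exact_mod_cast (by omega : N ≠ 0)
  have h1 : n = n % N + N * (n / N) := (Int.emod_add_mul_ediv n N).symm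
  have h2 := Int.emod_nonneg n hN0
  have h3 := Int.emod_lt_of_pos n (by omega : (0 : ℤ) < N)
  have h4 : ((n % N).toNat : ℤ) = n % N := Int.toNat_of_nonneg h2
  rw [h1, per_mul f.2, per_mul f'.2, ← h4]
  exact congrFun h ⟨(n % N).toNat, by omega⟩

section

variable {s2 s3 t : Equiv.Perm ℚ} {G : Subgroup (Equiv.Perm ℚ)}

/-- conditionally finite-dimensional traces are periodic along the powers of a translation -/
theorem per_of_fd (hs2 : ∀ x, s2 x = 2 * x) (hs3 : ∀ x, s3 x = 3 * x) (ht : ∀ x, t x = x + 1)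
    (hG : G = Subgroup.closure {s2, s3, t}) {φ : G → ℂ} (hφ : φ ∈ Traces G) (hfd : CondFinDim φ)
    {g : G} (hg : IsTranslation g) : ∃ N : ℕ, 1 ≤ N ∧ ∀ n : ℤ, φ (g ^ (n + N)) = φ (g ^ n) := by
  obtain ⟨h1, hcl, hpd⟩ := hφ
  obtain ⟨τ, S6, μ, D⟩ := data_of hs2 hs3 ht hG h1 hcl hpd
  have hprob := D.prob
  obtain ⟨m, -, hpow⟩ := zpow' D hg
  obtain ⟨M, hM1, hM⟩ := exists_kernel D.hτ D.hμ D.h2 hfd
  refine ⟨M, hM1, fun n => ?_⟩
  have hone : ∀ᵐ x ∂μ, (fourier ((M : ℤ) * m) x : ℂ) = 1 := by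
    have h5 : ∫ x, ‖(fourier ((M : ℤ) * m) x : ℂ) - 1‖ ^ 2 ∂μ = 0 := by
      have h6 : ∀ x : UnitAddCircle, ‖(fourier ((M : ℤ) * m) x : ℂ) - 1‖ ^ 2 =
          2 - 2 * (fourier ((M : ℤ) * m) x : ℂ).re := by
        intro x
        have h7 : ‖(fourier ((M : ℤ) * m) x : ℂ)‖ = 1 := Circle.norm_coe _
        have h8 : Complex.normSq (fourier ((M : ℤ) * m) x : ℂ) = 1 := by
          rw [Complex.normSq_eq_norm_sq, h7]; norm_num
        rw [← Complex.normSq_eq_norm_sq, Complex.normSq_sub, h8]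
        simp
        ring
      simp only [h6]
      have hint : Integrable (fun x : UnitAddCircle => (fourier ((M : ℤ) * m) x : ℂ)) μ :=
        RS.integrable_of_cont μ (map_continuous _)
      have h9 : ∫ x, (fourier ((M : ℤ) * m) x : ℂ) ∂μ = 1 := by rw [D.hμ, hM]
      have h10 : ∫ x, (fourier ((M : ℤ) * m) x : ℂ).re ∂μ = 1 := by
        have h11 := integral_re hint
        rw [h9] at h11
        exact h11
      have hre : Integrable (fun x : UnitAddCircle => (fourier ((M : ℤ) * m) x : ℂ).re) μ := hint.re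
      rw [integral_sub (integrable_const _) (hre.const_mul 2), integral_const_mul, h10]
      simp
    have h6 := (integral_eq_zero_iff_of_nonneg (fun x => by positivity)
      (RS.integrable_of_contR μ (by fun_prop))).1 h5
    filter_upwards [h6] with x hx
    have h7 : ‖(fourier ((M : ℤ) * m) x : ℂ) - 1‖ ^ 2 = 0 := hx
    have h8 : ‖(fourier ((M : ℤ) * m) x : ℂ) - 1‖ = 0 := by nlinarith [norm_nonneg ((fourier ((M : ℤ) * m) x : ℂ) - 1)]
    exact sub_eq_zero.1 (norm_eq_zero.1 h8)
  rw [hpow, hpow, ← D.hμ, ← D.hμ]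
  refine integral_congr_ae ?_
  filter_upwards [hone] with x hx
  have e : m * (n + M) = m * n + (M : ℤ) * m := by ring
  rw [e, fourier_add, hx, mul_one]

theorem kernelSpan_finite_of_fd (hs2 : ∀ x, s2 x = 2 * x) (hs3 : ∀ x, s3 x = 3 * x)
    (ht : ∀ x, t x = x + 1) (hG : G = Subgroup.closure {s2, s3, t}) {φ : G → ℂ}
    (hφ : φ ∈ Traces G) (hfd : CondFinDim φ) {g : G} (hg : IsTranslation g) (S : Set ℕ) :
    FiniteDimensional ℂ (kernelSpan φ g S) := by
  obtain ⟨N, hN, hper⟩ := per_of_fd hs2 hs3 ht hG hφ hfd hg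
  have hfin := per_finite hN
  have hle : kernelSpan φ g S ≤ Per N := by
    refine Submodule.span_le.2 ?_
    rintro f ⟨M, -, r, -, rfl⟩ n
    show φ (g ^ ((M : ℤ) * (n + N) + r)) = φ (g ^ ((M : ℤ) * n + r))
    have h1 := per_mul (f := fun k => φ (g ^ k)) hper ((M : ℤ) * n + r) M
    have e : (M : ℤ) * (n + N) + r = (M : ℤ) * n + r + N * M := by ring
    rw [e]
    exact h1
  exact Submodule.finiteDimensional_of_le hle

/-- the powers of a non-trivial translation -/
lemma zpow_ne_one {g : G} (hg : IsTranslation g) (hg1 : g ≠ 1) {n : ℤ} (hn : n ≠ 0) : g ^ n ≠ 1 := by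
  obtain ⟨r, hg⟩ := hg
  have hr : r ≠ 0 := by
    intro hr
    apply hg1
    apply Subtype.ext
    apply Equiv.ext
    intro x
    rw [hg, hr, add_zero]
    rfl
  have hpowN : ∀ (n : ℕ) (x : ℚ), ((g ^ n : G) : Equiv.Perm ℚ) x = x + n * r := by
    intro n
    induction n with
    | zero => intro x; simp
    | succ n ih =>
      intro x
      rw [pow_succ, Subgroup.coe_mul, Equiv.Perm.mul_apply, hg, ih]
      push_cast; ring
  intro h
  have hk : g ^ n.natAbs = 1 := by
    rcases Int.natAbs_eq n with h2 | h2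
    · rw [← zpow_natCast, ← h2, h]
    · rw [← zpow_natCast]
      have : (n.natAbs : ℤ) = -n := by omega
      rw [this, zpow_neg, h, inv_one]
  have h3 := hpowN n.natAbs 0
  rw [hk] at h3
  have h4 : (n.natAbs : ℚ) * r = 0 := by
    have : ((1 : G) : Equiv.Perm ℚ) 0 = (0 : ℚ) := rfl
    linarith
  rcases mul_eq_zero.1 h4 with h5 | h5
  · have : n.natAbs = 0 := by exact_mod_cast h5
    omega
  · exact hr h5

theorem kernelSpan_finite_of_regular {g : G} (hg : IsTranslation g) (hg1 : g ≠ 1) (S : Set ℕ) :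
    FiniteDimensional ℂ (kernelSpan (Regular G) g S) := by
  classical
  have hle : kernelSpan (Regular G) g S ≤ Submodule.span ℂ {(Pi.single 0 1 : ℤ → ℂ)} := by
    refine Submodule.span_le.2 ?_
    rintro f ⟨M, -, r, hr, rfl⟩
    have hval : ∀ k : ℤ, Regular G (g ^ k) = if k = 0 then 1 else 0 := by
      intro k
      by_cases hk : k = 0
      · rw [if_pos hk, hk, zpow_zero]
        unfold Regular
        rw [Set.indicator_of_mem (Set.mem_singleton _)]
      · rw [if_neg hk]
        unfold Regular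
        rw [Set.indicator_of_notMem]
        intro h
        exact zpow_ne_one hg hg1 hk h
    by_cases hr0 : r = 0
    · have : (fun n : ℤ => Regular G (g ^ ((M : ℤ) * n + r))) = (Pi.single 0 1 : ℤ → ℂ) := by
        funext n
        rw [hval, hr0]
        by_cases hn : n = 0
        · subst hn; simp
        · have hM0 : (M : ℤ) ≠ 0 := by omega
          rw [if_neg, Pi.single_eq_of_ne hn]
          rw [Nat.cast_zero, add_zero]
          exact mul_ne_zero hM0 hn
      rw [this]
      exact Submodule.subset_span rfl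
    · have : (fun n : ℤ => Regular G (g ^ ((M : ℤ) * n + r))) = 0 := by
        funext n
        rw [hval, if_neg]
        · rfl
        · intro h
          have h2 : (M : ℤ) ∣ r := ⟨-n, by linarith⟩
          have h3 : M ∣ r := by exact_mod_cast h2
          exact absurd (Nat.le_of_dvd (by omega) h3) (by omega)
      rw [this]
      exact Submodule.zero_mem _
  exact Submodule.finiteDimensional_of_le hle

lemma kernelSpan_eq {φ : G → ℂ} {g : G} {μ : Measure UnitAddCircle}
    (hval : ∀ n : ℤ, φ (g ^ n) = ∫ x, (fourier n x : ℂ) ∂μ) (S : Set ℕ) :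
    kernelSpan φ g S = Submodule.span ℂ (⋃ M ∈ S, RS.ker μ M) := by
  unfold kernelSpan
  congr 1
  ext f
  simp only [mem_setOf_eq, mem_iUnion, RS.ker, RS.seq]
  constructor
  · rintro ⟨M, hM, r, hr, rfl⟩
    exact ⟨M, hM, r, hr, by funext n; exact hval _⟩
  · rintro ⟨M, hM, r, hr, rfl⟩
    exact ⟨M, hM, r, hr, by funext n; exact (hval _).symm⟩

lemma conc_of_exceptional {μ : Measure UnitAddCircle} (h : Exceptional 2 3 μ) : RS.Conc μ := by
  obtain ⟨h1, -, h3⟩ := Pool.Agent.Results.MP_e27144_an.LocalMass.result μ h.prob h.inv_p h.inv_q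
  have h4 := h1 1 one_pos
  rw [h3 h.ergodic h.ne] at h4
  exact h4

end

end Pool.Agent.H50.Tr
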