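import Pool.Agent.H50.Tr.Defs
import Pool.Graph.R_pool_sql_team_seeded_843ab51a.V1194.TR.Bad

/-!
The measures of the tracial states.
-/

set_option autoImplicit false

open MeasureTheory Filter Topology Set
open scoped ENNReal ComplexOrder

namespace Pool.Agent.H50.Tr

open Pool.Agent.W763.Tr Pool.Agent.TH654.FC Pool.Agent.Y253.TR Pool.Agent.TH463.UQ
open Pool.Agent.V11299.FG Pool.Agent.V1194.TR

lemma fourier_neg' (n : ℤ) (x : UnitAddCircle) : (fourier n (-x) : ℂ) = fourier (-n) x := by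
  rw [fourier_apply, fourier_apply, smul_neg, neg_smul]

/-- the reflection of an exceptional measure -/
lemma exceptional_neg {p q : ℕ} {μ : Measure UnitAddCircle} (h : Exceptional p q μ) :
    Exceptional p q (μ.map (fun x => -x)) := by
  have hprob := h.prob
  have hm : Measurable fun x : UnitAddCircle => -x := measurable_neg
  have hmp : ∀ s : ℕ, MeasurePreserving (fun x : UnitAddCircle => s • x) μ μ →
      MeasurePreserving (fun x : UnitAddCircle => s • x) (μ.map (fun x => -x)) (μ.map (fun x => -x)) := by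
    intro s hs
    refine ⟨meas_nsmul s, ?_⟩
    rw [Measure.map_map (meas_nsmul s) hm]
    have e : ((fun x : UnitAddCircle => s • x) ∘ fun x : UnitAddCircle => -x) =
        (fun x : UnitAddCircle => -x) ∘ fun x => s • x := by
      funext x
      simp only [Function.comp]
      exact smul_neg _ _
    rw [e, ← Measure.map_map hm (meas_nsmul s), hs.map_eq]
  refine ⟨Measure.isProbabilityMeasure_map hm.aemeasurable, hmp p h.inv_p, hmp q h.inv_q, ?_, ?_, ?_⟩
  · intro x
    rw [Measure.map_apply hm (measurableSet_singleton x)]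
    have : (fun x : UnitAddCircle => -x) ⁻¹' {x} = {-x} := by
      ext y
      rw [mem_preimage, mem_singleton_iff, mem_singleton_iff, neg_eq_iff_eq_neg]
    rw [this, h.atomless]
  · intro A hA hAp hAq
    rw [Measure.map_apply hm hA]
    refine h.ergodic _ (hm hA) ?_ ?_
    · ext x
      show -(p • x) ∈ A ↔ -x ∈ A
      rw [← smul_neg]
      show -x ∈ (fun x : UnitAddCircle => p • x) ⁻¹' A ↔ _
      rw [hAp]
    · ext x
      show -(q • x) ∈ A ↔ -x ∈ A
      rw [← smul_neg]
      show -x ∈ (fun x : UnitAddCircle => q • x) ⁻¹' A ↔ _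
      rw [hAq]
  · intro hv
    apply h.ne
    refine Pool.Agent.W764.FB.ext_fourier fun n => ?_
    have h1 : ∫ x, (fourier (-n) x : ℂ) ∂(μ.map (fun x => -x)) = ∫ x, (fourier n x : ℂ) ∂μ := by
      rw [integral_map hm.aemeasurable (map_continuous _).aestronglyMeasurable]
      refine integral_congr_ae (Eventually.of_forall fun x => ?_)
      show (fourier (-n) (-x) : ℂ) = _
      rw [fourier_neg', neg_neg]
    rw [← h1, hv]
    by_cases hn : n = 0
    · subst hn; simp
    · rw [Pool.Agent.H769R3.integral_fourier_volume hn,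
        Pool.Agent.H769R3.integral_fourier_volume (neg_ne_zero.2 hn)]

section

variable {s2 s3 t : Equiv.Perm ℚ} {G : Subgroup (Equiv.Perm ℚ)}

/-- the values on the integral powers of translations -/
lemma zpow' {τ : ℤ → G} {φ : G → ℂ} {S6 : G} {μ : Measure UnitAddCircle} (D : Data G τ φ S6 μ)
    {g : G} (hg : IsTranslation g) :
    ∃ m : ℤ, (g ≠ 1 → m ≠ 0) ∧ ∀ n : ℤ, φ (g ^ n) = φ (τ (m * n)) := by
  obtain ⟨r, hg⟩ := hg
  obtain ⟨m, k, hr⟩ := D.six hg
  refine ⟨m, ?_, fun n => ?_⟩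
  · intro hg1 hm
    apply hg1
    apply Subtype.ext
    apply Equiv.ext
    intro x
    rw [hg, hr, hm]
    simp
  have hpowN : ∀ (n : ℕ) (x : ℚ), ((g ^ n : G) : Equiv.Perm ℚ) x = x + n * r := by
    intro n
    induction n with
    | zero => intro x; simp
    | succ n ih =>
      intro x
      rw [pow_succ, Subgroup.coe_mul, Equiv.Perm.mul_apply, hg, ih]
      push_cast; ring
  have hpow : ∀ x, ((g ^ n : G) : Equiv.Perm ℚ) x = x + n * r := by
    intro x
    rcases Int.eq_nat_or_neg n with ⟨k, rfl | rfl⟩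
    · rw [zpow_natCast, hpowN]; push_cast; ring
    · rw [zpow_neg, zpow_natCast]
      have h1 := hpowN k ((((g ^ k)⁻¹ : G) : Equiv.Perm ℚ) x)
      have h2 : ((g ^ k : G) : Equiv.Perm ℚ) ((((g ^ k)⁻¹ : G) : Equiv.Perm ℚ) x) = x := by
        rw [← Equiv.Perm.mul_apply, ← Subgroup.coe_mul, mul_inv_cancel]
        rfl
      rw [h2] at h1
      have h3 : (((g ^ k)⁻¹ : G) : Equiv.Perm ℚ) x = x - k * r := by linarith
      rw [h3]; push_cast; ring
  refine phi_trans D.hτ D.hcl S6 D.hS6 (g ^ n) (m * n) k fun x => ?_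
  rw [hpow, hr]
  push_cast; ring

/-- the measure of an extreme trace which violates the dichotomy, at a translation -/
theorem wild_measure (hs2 : ∀ x, s2 x = 2 * x) (hs3 : ∀ x, s3 x = 3 * x) (ht : ∀ x, t x = x + 1)
    (hG : G = Subgroup.closure {s2, s3, t}) {φ : G → ℂ}
    (hφ : φ ∈ Set.extremePoints ℝ (Traces G)) (hreg : φ ≠ Regular G) (hfd : ¬ CondFinDim φ)
    {g : G} (hg : IsTranslation g) (hg1 : g ≠ 1) :
    ∃ μ : Measure UnitAddCircle, Exceptional 2 3 μ ∧ ∀ n : ℤ, φ (g ^ n) = ∫ x, (fourier n x : ℂ) ∂μ := by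
  have mt : t ∈ G := by rw [hG]; exact Subgroup.subset_closure (by simp)
  obtain ⟨μ₀, hE, -, hval⟩ := bad_measure (u := ⟨t, mt⟩) hs2 hs3 ht hG ht (φ := φ) ⟨hφ, hreg, hfd⟩
  obtain ⟨h1, hcl, hpd⟩ := hφ.1
  obtain ⟨τ, S6, μ', D⟩ := data_of hs2 hs3 ht hG h1 hcl hpd
  obtain ⟨m, hm, hpow⟩ := zpow' D hg
  have hm0 := hm hg1
  have hval' : ∀ n : ℤ, φ (g ^ n) = ∫ x, (fourier (m * n) x : ℂ) ∂μ₀ := by
    intro n
    rw [hpow n, ← hval (m * n), upow D.hτ (u := ⟨t, mt⟩) ht]
  have hk : 1 ≤ m.natAbs := Int.natAbs_pos.2 hm0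
  have hmap : ∀ (ν : Measure UnitAddCircle) (n : ℤ), ∫ x, (fourier n x : ℂ) ∂(ν.map (fun x : UnitAddCircle => m.natAbs • x)) =
      ∫ x, (fourier ((m.natAbs : ℤ) * n) x : ℂ) ∂ν := fun ν n => fc_map ν m.natAbs n
  rcases Int.natAbs_eq m with h | h
  · refine ⟨μ₀.map (fun x : UnitAddCircle => m.natAbs • x), hE.map le_rfl (by norm_num) hk, fun n => ?_⟩
    rw [hmap, hval', ← h]
  · refine ⟨(μ₀.map (fun x => -x)).map (fun x : UnitAddCircle => m.natAbs • x),
      (exceptional_neg hE).map le_rfl (by norm_num) hk, fun n => ?_⟩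
    rw [hmap, integral_map measurable_neg.aemeasurable (map_continuous _).aestronglyMeasurable, hval']
    refine integral_congr_ae (Eventually.of_forall fun x => ?_)
    show (fourier (m * n) x : ℂ) = fourier ((m.natAbs : ℤ) * n) (-x)
    rw [fourier_neg', ← neg_mul, ← h]

/-- the measure of a trace at a translation -/
theorem trace_measure (hs2 : ∀ x, s2 x = 2 * x) (hs3 : ∀ x, s3 x = 3 * x) (ht : ∀ x, t x = x + 1)
    (hG : G = Subgroup.closure {s2, s3, t}) {φ : G → ℂ} (hφ : φ ∈ Traces G) {g : G}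
    (hg : IsTranslation g) :
    ∃ μ : Measure UnitAddCircle, IsProbabilityMeasure μ ∧
      MeasurePreserving (fun x : UnitAddCircle => 2 • x) μ μ ∧
      MeasurePreserving (fun x : UnitAddCircle => 3 • x) μ μ ∧
      ∀ n : ℤ, φ (g ^ n) = ∫ x, (fourier n x : ℂ) ∂μ := by
  obtain ⟨h1, hcl, hpd⟩ := hφ
  obtain ⟨τ, S6, μ', D⟩ := data_of hs2 hs3 ht hG h1 hcl hpd
  have hprob := D.prob
  obtain ⟨m, -, hpow⟩ := zpow' D hg
  have hc : Continuous fun x : UnitAddCircle => m • x := continuous_zsmul m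
  have hmp : ∀ s : ℕ, MeasurePreserving (fun x : UnitAddCircle => s • x) μ' μ' →
      MeasurePreserving (fun x : UnitAddCircle => s • x) (μ'.map (fun x => m • x))
        (μ'.map (fun x => m • x)) := by
    intro s hs
    refine ⟨meas_nsmul s, ?_⟩
    rw [Measure.map_map (meas_nsmul s) hc.measurable]
    have e : ((fun x : UnitAddCircle => s • x) ∘ fun x : UnitAddCircle => m • x) =
        (fun x : UnitAddCircle => m • x) ∘ fun x => s • x := by
      funext x
      simp only [Function.comp]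
      exact smul_comm _ _ _
    rw [e, ← Measure.map_map hc.measurable (meas_nsmul s), hs.map_eq]
  refine ⟨μ'.map (fun x => m • x), Measure.isProbabilityMeasure_map hc.measurable.aemeasurable,
    hmp 2 D.mp2, hmp 3 D.mp3, fun n => ?_⟩
  rw [hpow n, ← D.hμ, integral_map hc.measurable.aemeasurable (map_continuous _).aestronglyMeasurable]
  refine integral_congr_ae (Eventually.of_forall fun x => ?_)
  show (fourier (m * n) x : ℂ) = fourier n (m • x)
  rw [fourier_apply, fourier_apply, mul_comm, mul_smul]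

end

end Pool.Agent.H50.Tr
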