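import Mathlib

/-!
# Tracial states of the group `ℤ² ⋉ ℤ[1/6]`

`G` is the group of permutations of `ℚ` generated by `x ↦ 2 x`, `x ↦ 3 x`, `x ↦ x + 1`, a copy of
`ℤ² ⋉ ℤ[1/6]`. The tracial states of `C*(G)` are the normalised positive definite class functions
on `G`.
-/

set_option autoImplicit false

open scoped ComplexOrder

namespace Pool.Agent.H50.Tr

/-- `g` is a translation `x ↦ x + r` -/
def IsTranslation {G : Subgroup (Equiv.Perm ℚ)} (g : G) : Prop :=
  ∃ r : ℚ, ∀ x : ℚ, (g : Equiv.Perm ℚ) x = x + r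

/-- the tracial states: normalised positive definite class functions -/
def Traces (G : Subgroup (Equiv.Perm ℚ)) : Set (G → ℂ) :=
  {ψ : G → ℂ | ψ 1 = 1 ∧ (∀ g h : G, ψ (h * g * h⁻¹) = ψ g) ∧
    ∀ (s : Finset G) (c : G → ℂ), 0 ≤ ∑ i ∈ s, ∑ j ∈ s, star (c j) * c i * ψ (j⁻¹ * i)}

/-- the regular trace -/
noncomputable def Regular (G : Subgroup (Equiv.Perm ℚ)) : G → ℂ := Set.indicator ({1} : Set G) (fun _ => (1 : ℂ))

/-- conditionally finite-dimensional: the translates of `φ` by the translations span a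
finite-dimensional space of functions on `G` -/
def CondFinDim {G : Subgroup (Equiv.Perm ℚ)} (φ : G → ℂ) : Prop :=
  FiniteDimensional ℂ (Submodule.span ℂ {F : G → ℂ | ∃ n : G,
    (∃ r : ℚ, ∀ x : ℚ, (n : Equiv.Perm ℚ) x = x + r) ∧ F = fun x => φ (n * x)})

end Pool.Agent.H50.Tr
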